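import Pool.Agent.TH835.HF.Par
import Pool.Agent.TH242.TI.Main

/-!
Averaging closed forms on `X × V` that are periodic under a lattice of `V`.
-/

set_option autoImplicit false
set_option maxSynthPendingDepth 3

open Set Filter Topology
open scoped ContDiff Manifold

namespace Pool.Agent.TH835.HF

open Pool.Agent.TH242.TI

theorem ev_int {F : Type*} [NormedAddCommGroup F] [NormedSpace ℝ F]
    {φ : ℝ → F →L[ℝ] F →L[ℝ] ℝ} (hφ : Continuous φ) (u w : F) :
    (∫ τ in (0:ℝ)..1, φ τ) u w = ∫ τ in (0:ℝ)..1, φ τ u w := by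
  have h := ContinuousLinearMap.intervalIntegral_comp_comm (μ := MeasureTheory.volume)
    (evL u w) (hφ.intervalIntegrable 0 1)
  exact h.symm

theorem closed_int {F : Type*} [NormedAddCommGroup F] [NormedSpace ℝ F]
    {φ : ℝ → F →L[ℝ] F →L[ℝ] F →L[ℝ] ℝ} (hφ : Continuous φ) (u v w : F)
    (h : ∀ τ, φ τ u v w + φ τ v w u + φ τ w u v = 0) :
    (∫ τ in (0:ℝ)..1, φ τ) u v w + (∫ τ in (0:ℝ)..1, φ τ) v w u +
      (∫ τ in (0:ℝ)..1, φ τ) w u v = 0 := by
  let ap : F → (F →L[ℝ] (F →L[ℝ] F →L[ℝ] ℝ)) →L[ℝ] (F →L[ℝ] F →L[ℝ] ℝ) := fun a =>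
    ContinuousLinearMap.apply ℝ (F →L[ℝ] F →L[ℝ] ℝ) a
  let L : (F →L[ℝ] (F →L[ℝ] F →L[ℝ] ℝ)) →L[ℝ] ℝ :=
    (evL v w).comp (ap u) + (evL w u).comp (ap v) + (evL u v).comp (ap w)
  have hL : ∀ D, L D = D u v w + D v w u + D w u v := fun _ => rfl
  have h1 := ContinuousLinearMap.intervalIntegral_comp_comm (μ := MeasureTheory.volume)
    L (hφ.intervalIntegrable 0 1)
  rw [← hL, ← h1]
  have h2 : ∀ τ : ℝ, L (φ τ) = 0 := fun τ => by
    rw [hL]
    exact h τ
  simp only [h2]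
  simp

theorem av_closed {F : Type*} [NormedAddCommGroup F] [NormedSpace ℝ F] [FiniteDimensional ℝ F]
    {U : Set F} (hU : IsOpen U) {a : F} (ha : ∀ p ∈ U, ∀ τ : ℝ, p + τ • a ∈ U)
    {f : F → F →L[ℝ] F →L[ℝ] ℝ} (hf : ContDiffOn ℝ ∞ f U)
    (h : ∀ p ∈ U, ∀ u v w, fderiv ℝ f p u v w + fderiv ℝ f p v w u + fderiv ℝ f p w u v = 0)
    {p : F} (hp : p ∈ U) (u v w : F) :
    fderiv ℝ (av a f) p u v w + fderiv ℝ (av a f) p v w u + fderiv ℝ (av a f) p w u v = 0 := by
  have h1 := av_hasFDerivAt hU ha hf hp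
  have hc : Continuous fun τ : ℝ => fderiv ℝ f (p + τ • a) :=
    av_cont ha (hf.continuousOn_fderiv_of_isOpen hU (by simp)) hp
  rw [h1.fderiv]
  exact closed_int hc u v w fun τ => h _ (ha p hp τ) u v w

section

variable {E X V : Type*} [NormedAddCommGroup E] [NormedSpace ℝ E]
  [NormedAddCommGroup V] [NormedSpace ℝ V]
  [TopologicalSpace X] [ChartedSpace E X] [IsManifold 𝓘(ℝ, E) ∞ X]

/-- coordinate expressions of a closed `2`-form on `X × V` -/
structure Cl (om : atlas E X → E × V → (E × V) →L[ℝ] (E × V) →L[ℝ] ℝ) : Prop where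
  smooth : ∀ e : atlas E X,
    ContDiffOn ℝ ∞ (om e) (pc V (e : OpenPartialHomeomorph X E)).target
  alt : ∀ e : atlas E X, ∀ p ∈ (pc V (e : OpenPartialHomeomorph X E)).target, ∀ u,
    om e p u u = 0
  compat : ∀ e e' : atlas E X, ∀ x ∈ (pc V (e : OpenPartialHomeomorph X E)).source ∩
      (pc V (e' : OpenPartialHomeomorph X E)).source, ∀ u v,
    om e (pc V (e : OpenPartialHomeomorph X E) x) u v =
      om e' (pc V (e' : OpenPartialHomeomorph X E) x)
        (fderiv ℝ (pc V (e' : OpenPartialHomeomorph X E) ∘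
          (pc V (e : OpenPartialHomeomorph X E)).symm)
            (pc V (e : OpenPartialHomeomorph X E) x) u)
        (fderiv ℝ (pc V (e' : OpenPartialHomeomorph X E) ∘
          (pc V (e : OpenPartialHomeomorph X E)).symm)
            (pc V (e : OpenPartialHomeomorph X E) x) v)
  closed : ∀ e : atlas E X, ∀ p ∈ (pc V (e : OpenPartialHomeomorph X E)).target, ∀ u v w,
    fderiv ℝ (om e) p u v w + fderiv ℝ (om e) p v w u + fderiv ℝ (om e) p w u v = 0

omit [ChartedSpace E X] [IsManifold 𝓘(ℝ, E) ∞ X] in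
theorem pc_shift {e : OpenPartialHomeomorph X E} {p : E × V} (hp : p ∈ (pc V e).target) (τ : ℝ)
    (v : V) : p + τ • ((0 : E), v) ∈ (pc V e).target := by
  refine ⟨?_, mem_univ _⟩
  have h1 : (p + τ • ((0 : E), v)).1 = p.1 := by simp
  rw [h1]
  exact hp.1

omit [ChartedSpace E X] [IsManifold 𝓘(ℝ, E) ∞ X] in
theorem pc_add {e : OpenPartialHomeomorph X E} (x : X) (s v : V) (τ : ℝ) :
    pc V e (x, s) + τ • ((0 : E), v) = pc V e (x, s + τ • v) := by
  have h1 : ∀ t : V, pc V e (x, t) = (e x, t) := fun _ => rfl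
  rw [h1, h1]
  simp

theorem Cl.avg [FiniteDimensional ℝ E] [FiniteDimensional ℝ V]
    {om : atlas E X → E × V → (E × V) →L[ℝ] (E × V) →L[ℝ] ℝ} (h : Cl om) (v : V) :
    Cl (fun e => av ((0 : E), v) (om e)) := by
  have hsh : ∀ e : atlas E X, ∀ p ∈ (pc V (e : OpenPartialHomeomorph X E)).target, ∀ τ : ℝ,
      p + τ • ((0 : E), v) ∈ (pc V (e : OpenPartialHomeomorph X E)).target :=
    fun e p hp τ => pc_shift hp τ v
  have hcont : ∀ e : atlas E X, ∀ p ∈ (pc V (e : OpenPartialHomeomorph X E)).target,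
      Continuous fun τ : ℝ => om e (p + τ • ((0 : E), v)) := fun e p hp =>
    av_cont (hsh e) (h.smooth e).continuousOn hp
  refine ⟨fun e => ?_, fun e p hp u => ?_, ?_, fun e p hp u w z => ?_⟩
  · exact av_smooth (pc V (e : OpenPartialHomeomorph X E)).open_target (hsh e) (h.smooth e)
  · show (∫ τ in (0:ℝ)..1, om e (p + τ • ((0 : E), v))) u u = 0
    rw [ev_int (hcont e p hp)]
    have h1 : ∀ τ : ℝ, om e (p + τ • ((0 : E), v)) u u = 0 := fun τ => h.alt e _ (hsh e p hp τ) u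
    simp only [h1]
    simp
  · rintro e e' ⟨x, s⟩ ⟨hx, hx'⟩ ⟨a, c⟩ ⟨b, d⟩
    have hx1 : x ∈ (e : OpenPartialHomeomorph X E).source := hx.1
    have hx2 : x ∈ (e' : OpenPartialHomeomorph X E).source := hx'.1
    have ht : pc V (e : OpenPartialHomeomorph X E) (x, s) ∈
        (pc V (e : OpenPartialHomeomorph X E)).target :=
      (pc V (e : OpenPartialHomeomorph X E)).map_source hx
    have ht' : pc V (e' : OpenPartialHomeomorph X E) (x, s) ∈
        (pc V (e' : OpenPartialHomeomorph X E)).target :=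
      (pc V (e' : OpenPartialHomeomorph X E)).map_source hx'
    rw [pc_trans e.2 e'.2 hx1 hx2 s a c, pc_trans e.2 e'.2 hx1 hx2 s b d]
    show (∫ τ in (0:ℝ)..1, om e (pc V (e : OpenPartialHomeomorph X E) (x, s) +
        τ • ((0 : E), v))) (a, c) (b, d) =
      (∫ τ in (0:ℝ)..1, om e' (pc V (e' : OpenPartialHomeomorph X E) (x, s) +
        τ • ((0 : E), v))) _ _
    rw [ev_int (hcont e _ ht), ev_int (hcont e' _ ht')]
    refine intervalIntegral.integral_congr (fun τ _ => ?_)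
    rw [pc_add, pc_add]
    have h1 := h.compat e e' (x, s + τ • v) ⟨⟨hx1, mem_univ _⟩, ⟨hx2, mem_univ _⟩⟩ (a, c) (b, d)
    rw [pc_trans e.2 e'.2 hx1 hx2 (s + τ • v) a c,
      pc_trans e.2 e'.2 hx1 hx2 (s + τ • v) b d] at h1
    exact h1
  · exact av_closed (pc V (e : OpenPartialHomeomorph X E)).open_target (hsh e) (h.smooth e)
      (h.closed e) hp u w z

end

/-- averaging in one direction of period -/
theorem av_period {P G : Type*} [NormedAddCommGroup P] [NormedSpace ℝ P]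
    [NormedAddCommGroup G] [NormedSpace ℝ G] {f : P → G} {a p : P}
    (hper : ∀ τ : ℝ, f (p + τ • a + a) = f (p + τ • a)) (c : ℝ) :
    av a f (p + c • a) = av a f p := by
  unfold av
  have h1 : Function.Periodic (fun τ : ℝ => f (p + τ • a)) 1 := by
    intro τ
    beta_reduce
    rw [← hper τ, add_smul, one_smul, add_assoc]
  have h2 := h1.intervalIntegral_add_eq c 0
  have h3 : (∫ τ in (0:ℝ)..1, f (p + c • a + τ • a)) = ∫ τ in c..(c + 1), f (p + τ • a) := by
    have h4 := intervalIntegral.integral_comp_add_right (a := (0:ℝ)) (b := 1)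
      (fun τ : ℝ => f (p + τ • a)) c
    rw [zero_add, add_comm 1 c] at h4
    rw [← h4]
    refine intervalIntegral.integral_congr (fun τ _ => ?_)
    congr 1
    rw [add_smul]
    abel
  rw [h3, h2, zero_add]

end Pool.Agent.TH835.HF
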