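import Pool.Agent.TH835.HF.Avg

/-!
Symplectic forms on the product of a closed manifold with a torus that need not be invariant.
-/

set_option autoImplicit false
set_option maxSynthPendingDepth 3

open Set Filter Topology
open scoped ContDiff Manifold

namespace Pool.Agent.TH835.HF

open Pool.Agent.TH242.TI

/-- properties that are kept by averages -/
def Stab {G : Type*} [NormedAddCommGroup G] [NormedSpace ℝ G] (Q : G → Prop) : Prop :=
  ∀ φ : ℝ → G, Continuous φ → (∀ τ, Q (φ τ)) → Q (∫ τ in (0:ℝ)..1, φ τ)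

theorem stab_convex {G : Type*} [NormedAddCommGroup G] [NormedSpace ℝ G] [CompleteSpace G]
    {K : Set G} (hK : Convex ℝ K) (hc : IsClosed K) : Stab (fun x => x ∈ K) := by
  intro φ hφ h
  rw [intervalIntegral.integral_of_le zero_le_one]
  have : MeasureTheory.IsProbabilityMeasure
      (MeasureTheory.volume.restrict (Ioc (0:ℝ) 1)) := ⟨by simp⟩
  exact hK.integral_mem hc (MeasureTheory.ae_of_all _ h) hφ.integrableOn_Ioc

theorem stab_pos {F : Type*} [NormedAddCommGroup F] [NormedSpace ℝ F] (J : F → F) :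
    Stab (fun Φ : F →L[ℝ] F →L[ℝ] ℝ => ∀ u, u ≠ 0 → 0 < Φ u (J u)) := by
  intro φ hφ h u hu
  rw [ev_int hφ]
  have hc : Continuous fun τ : ℝ => φ τ u (J u) := by fun_prop
  exact intervalIntegral.intervalIntegral_pos_of_pos (hc.intervalIntegrable 0 1)
    (fun τ => h τ u hu) zero_lt_one

section

variable {E X V : Type*} [NormedAddCommGroup E] [NormedSpace ℝ E]
  [NormedAddCommGroup V] [NormedSpace ℝ V]
  [TopologicalSpace X] [ChartedSpace E X] [IsManifold 𝓘(ℝ, E) ∞ X]

theorem av_apply {G : Type*} [NormedAddCommGroup G] [NormedSpace ℝ G] (f : E × V → G) (v : V)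
    (y : E) (s : V) : av ((0 : E), v) f (y, s) = ∫ τ in (0:ℝ)..1, f (y, s + τ • v) := by
  unfold av
  refine intervalIntegral.integral_congr (fun τ _ => ?_)
  simp

/-- periodic under the basis `b` -/
def Per {ι : Type*} (b : ι → V) (om : atlas E X → E × V → (E × V) →L[ℝ] (E × V) →L[ℝ] ℝ) : Prop :=
  ∀ e : atlas E X, ∀ y ∈ (e : OpenPartialHomeomorph X E).target, ∀ (s : V) (i : ι),
    om e (y, s + b i) = om e (y, s)

theorem step [FiniteDimensional ℝ E] [FiniteDimensional ℝ V] {ι : Type*} (b : ι → V)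
    (Q : atlas E X → E → ((E × V) →L[ℝ] (E × V) →L[ℝ] ℝ) → Prop) (hQ : ∀ e y, Stab (Q e y))
    (S : Finset ι) :
    ∀ {om : atlas E X → E × V → (E × V) →L[ℝ] (E × V) →L[ℝ] ℝ}, Cl om → Per b om →
      (∀ e : atlas E X, ∀ y ∈ (e : OpenPartialHomeomorph X E).target, ∀ s, Q e y (om e (y, s))) →
    ∃ om' : atlas E X → E × V → (E × V) →L[ℝ] (E × V) →L[ℝ] ℝ, Cl om' ∧ Per b om' ∧
      (∀ e : atlas E X, ∀ y ∈ (e : OpenPartialHomeomorph X E).target, ∀ s, Q e y (om' e (y, s))) ∧
      (∀ e : atlas E X, ∀ y ∈ (e : OpenPartialHomeomorph X E).target, ∀ s, ∀ i ∈ S, ∀ c : ℝ,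
        om' e (y, s + c • b i) = om' e (y, s)) := by
  classical
  induction S using Finset.induction_on with
  | empty =>
    intro om h hp hq
    exact ⟨om, h, hp, hq, fun e y hy s i hi => absurd hi (Finset.notMem_empty i)⟩
  | insert i S hi ih =>
    intro om h hp hq
    obtain ⟨om', h', hp', hq', hS⟩ := ih h hp hq
    refine ⟨fun e => av ((0 : E), b i) (om' e), h'.avg (b i), ?_, ?_, ?_⟩
    · intro e y hy s j
      beta_reduce
      rw [av_apply, av_apply]
      refine intervalIntegral.integral_congr (fun τ _ => ?_)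
      show om' e (y, s + b j + τ • b i) = om' e (y, s + τ • b i)
      rw [add_right_comm]
      exact hp' e y hy _ j
    · intro e y hy s
      beta_reduce
      rw [av_apply]
      refine hQ e y _ ?_ (fun τ => hq' e y hy _)
      have hmem : ((y, s) : E × V) ∈ (pc V (e : OpenPartialHomeomorph X E)).target :=
        ⟨hy, mem_univ _⟩
      have h1 := av_cont (a := ((0 : E), b i))
        (fun p hp τ => pc_shift (e := (e : OpenPartialHomeomorph X E)) hp τ (b i))
        (h'.smooth e).continuousOn hmem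
      have h2 : (fun τ : ℝ => om' e ((y, s) + τ • ((0 : E), b i))) =
          fun τ : ℝ => om' e (y, s + τ • b i) := by
        funext τ
        simp
      rw [h2] at h1
      exact h1
    · intro e y hy s j hj c
      rcases Finset.mem_insert.1 hj with rfl | hj
      · have h1 := av_period (f := om' e) (a := ((0 : E), b j)) (p := ((y, s) : E × V)) ?_ c
        · have h2 : ((y, s) : E × V) + c • ((0 : E), b j) = (y, s + c • b j) := by simp
          rw [h2] at h1
          exact h1
        · intro τ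
          have h3 : ((y, s) : E × V) + τ • ((0 : E), b j) = (y, s + τ • b j) := by simp
          have h4 : ((y, s + τ • b j) : E × V) + ((0 : E), b j) = (y, s + τ • b j + b j) := by simp
          rw [h3, h4]
          exact hp' e y hy _ j
      · beta_reduce
        rw [av_apply, av_apply]
        refine intervalIntegral.integral_congr (fun τ _ => ?_)
        show om' e (y, s + c • b j + τ • b i) = om' e (y, s + τ • b i)
        rw [add_right_comm]
        exact hS e y hy _ j hj c

theorem exists_inv [FiniteDimensional ℝ E] [FiniteDimensional ℝ V] {ι : Type*} [Fintype ι]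
    (b : Module.Basis ι ℝ V)
    (Q : atlas E X → E → ((E × V) →L[ℝ] (E × V) →L[ℝ] ℝ) → Prop) (hQ : ∀ e y, Stab (Q e y))
    {om : atlas E X → E × V → (E × V) →L[ℝ] (E × V) →L[ℝ] ℝ} (h : Cl om) (hp : Per b om)
    (hq : ∀ e : atlas E X, ∀ y ∈ (e : OpenPartialHomeomorph X E).target, ∀ s,
      Q e y (om e (y, s))) :
    ∃ om' : atlas E X → E × V → (E × V) →L[ℝ] (E × V) →L[ℝ] ℝ, Cl om' ∧ Inv om' ∧
      (∀ e : atlas E X, ∀ y ∈ (e : OpenPartialHomeomorph X E).target, ∀ s,
        Q e y (om' e (y, s))) := by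
  classical
  obtain ⟨om', h', -, hq', hS⟩ := step b Q hQ Finset.univ h hp hq
  refine ⟨om', h', fun e y hy s => ?_, hq'⟩
  have h1 : ∀ T : Finset ι, om' e (y, ∑ i ∈ T, b.repr s i • b i) = om' e (y, 0) := by
    intro T
    induction T using Finset.induction_on with
    | empty => simp
    | insert i T hi ih =>
      rw [Finset.sum_insert hi, add_comm, hS e y hy _ i (Finset.mem_univ i), ih]
  have h2 := h1 Finset.univ
  rw [b.sum_repr] at h2
  exact h2

theorem Cl.toSym {om : atlas E X → E × V → (E × V) →L[ℝ] (E × V) →L[ℝ] ℝ} (h : Cl om)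
    (hn : ∀ e : atlas E X, ∀ y ∈ (e : OpenPartialHomeomorph X E).target, ∀ s,
      ∀ u, u ≠ 0 → ∃ v, om e (y, s) u v ≠ 0) :
    Sym (fun e : atlas E X => pc V (e : OpenPartialHomeomorph X E)) om :=
  ⟨h.smooth, h.alt, h.compat, h.closed, fun e p hp => hn e p.1 hp.1 p.2⟩

theorem Cl.ofSym {om : atlas E X → E × V → (E × V) →L[ℝ] (E × V) →L[ℝ] ℝ}
    (h : Sym (fun e : atlas E X => pc V (e : OpenPartialHomeomorph X E)) om) : Cl om :=
  ⟨h.smooth, h.alt, h.compat, h.closed⟩

/-- a nondegenerate alternating form tames some endomorphism -/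
theorem exists_J {F : Type*} [NormedAddCommGroup F] [NormedSpace ℝ F] [FiniteDimensional ℝ F]
    {Φ : F →L[ℝ] F →L[ℝ] ℝ} (halt : ∀ u, Φ u u = 0) (hn : ND Φ) :
    ∃ J : F →L[ℝ] F, ∀ u, u ≠ 0 → 0 < Φ u (J u) := by
  obtain ⟨k, hk⟩ := hn.equiv
  let m := Module.finrank ℝ F
  let g0 : F ≃L[ℝ] EuclideanSpace ℝ (Fin m) :=
    (LinearEquiv.ofFinrankEq F _ (by simp [m])).toContinuousLinearEquiv
  let g1 : F →L[ℝ] EuclideanSpace ℝ (Fin m) := (g0 : F →L[ℝ] _)
  let g : F →L[ℝ] F →L[ℝ] ℝ := (innerSL ℝ).bilinearComp g1 g1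
  have hg : ∀ u v, g u v = inner ℝ (g0 u) (g0 v) := fun _ _ => rfl
  have hanti : ∀ u v, Φ u v = - Φ v u := by
    intro u v
    have h1 := halt (u + v)
    have h0 : Φ (u + v) = Φ u + Φ v := map_add _ _ _
    rw [h0] at h1
    have h2 : Φ u (u + v) + Φ v (u + v) = 0 := h1
    rw [map_add, map_add, halt, halt] at h2
    linarith
  refine ⟨-((k.symm : (F →L[ℝ] ℝ) →L[ℝ] F).comp g), fun u hu => ?_⟩
  have h1 : Φ (k.symm (g u)) = g u := by
    rw [← hk]
    exact k.apply_symm_apply _
  have h2 : Φ u ((-((k.symm : (F →L[ℝ] ℝ) →L[ℝ] F).comp g)) u) = g u u := by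
    have h3 : (-((k.symm : (F →L[ℝ] ℝ) →L[ℝ] F).comp g)) u = - (k.symm (g u)) := rfl
    rw [h3, map_neg, hanti u, h1, neg_neg]
  rw [h2, hg]
  have h4 : g0 u ≠ 0 := fun h => hu (g0.map_eq_zero_iff.1 h)
  exact real_inner_self_pos.2 h4

end

end Pool.Agent.TH835.HF
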