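import Mathlib

/-!
Averages of smooth functions over a segment of translations.
-/

set_option autoImplicit false

open scoped Topology ContDiff
open Set Metric

namespace Pool.Agent.TH835.HF

variable {P G : Type*} [NormedAddCommGroup P] [NormedSpace ℝ P] [FiniteDimensional ℝ P]
  [NormedAddCommGroup G] [NormedSpace ℝ G]

/-- Differentiation under the integral sign. -/
theorem hasFDerivAt_par {k : ℝ × P → G} {U : Set P} (hU : IsOpen U)
    (hk : ContDiffOn ℝ 1 k (univ ×ˢ U)) {y₀ : P} (hy₀ : y₀ ∈ U) :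
    HasFDerivAt (fun y => ∫ s in (0:ℝ)..1, k (s, y))
      (∫ s in (0:ℝ)..1, (fderiv ℝ k (s, y₀)).comp (ContinuousLinearMap.inr ℝ ℝ P)) y₀ := by
  have hopen : IsOpen ((univ : Set ℝ) ×ˢ U) := isOpen_univ.prod hU
  obtain ⟨δ, hδ, hδU⟩ := Metric.nhds_basis_closedBall.mem_iff.1 (hU.mem_nhds hy₀)
  have hcf : ContinuousOn (fderiv ℝ k) (univ ×ˢ U) := hk.continuousOn_fderiv_of_isOpen hopen le_rfl
  have hcF' : ContinuousOn (fun q : ℝ × P => (fderiv ℝ k q).comp
      (ContinuousLinearMap.inr ℝ ℝ P)) (univ ×ˢ U) :=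
    hcf.clm_comp continuousOn_const
  have hcomp : IsCompact (uIcc (0:ℝ) 1 ×ˢ closedBall y₀ δ) :=
    isCompact_uIcc.prod (isCompact_closedBall _ _)
  obtain ⟨C, hC⟩ := hcomp.exists_bound_of_continuousOn
    (hcF'.mono (prod_mono (subset_univ _) hδU))
  have hcont : ∀ y ∈ U, Continuous (fun s : ℝ => k (s, y)) := by
    intro y hy
    rw [← continuousOn_univ]
    exact hk.continuousOn.comp (by fun_prop) (fun s _ => ⟨mem_univ _, hy⟩)
  have hcont' : ∀ y ∈ U, Continuous (fun s : ℝ => (fderiv ℝ k (s, y)).comp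
      (ContinuousLinearMap.inr ℝ ℝ P)) := by
    intro y hy
    rw [← continuousOn_univ]
    exact hcF'.comp (by fun_prop) (fun s _ => ⟨mem_univ _, hy⟩)
  refine intervalIntegral.hasFDerivAt_integral_of_dominated_of_fderiv_le
    (F := fun y s => k (s, y))
    (F' := fun y s => (fderiv ℝ k (s, y)).comp (ContinuousLinearMap.inr ℝ ℝ P))
    (bound := fun _ => C) (closedBall_mem_nhds y₀ hδ) ?_ ?_ ?_ ?_ ?_ ?_
  · filter_upwards [hU.mem_nhds hy₀] with y hy
    exact (hcont y hy).aestronglyMeasurable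
  · exact (hcont y₀ hy₀).intervalIntegrable _ _
  · exact (hcont' y₀ hy₀).aestronglyMeasurable
  · refine Filter.Eventually.of_forall fun t ht y hy => ?_
    exact hC (t, y) ⟨uIoc_subset_uIcc ht, hy⟩
  · exact continuous_const.intervalIntegrable _ _
  · refine Filter.Eventually.of_forall fun t ht y hy => ?_
    have hd : DifferentiableAt ℝ k (t, y) :=
      (hk.contDiffAt (hopen.mem_nhds ⟨mem_univ _, hδU hy⟩)).differentiableAt (by simp)
    exact hd.hasFDerivAt.comp y (hasFDerivAt_prodMk_right t y)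

theorem contDiffOn_par_nat [CompleteSpace G] {U : Set P} (hU : IsOpen U) (n : ℕ) :
    ∀ k : ℝ × P → G, ContDiffOn ℝ ∞ k (univ ×ˢ U) →
      ContDiffOn ℝ n (fun y => ∫ s in (0:ℝ)..1, k (s, y)) U := by
  have hopen : IsOpen ((univ : Set ℝ) ×ˢ U) := isOpen_univ.prod hU
  induction n with
  | zero =>
    intro k hk
    rw [Nat.cast_zero, contDiffOn_zero]
    intro y hy
    exact (hasFDerivAt_par hU (hk.of_le (by simp)) hy).continuousAt.continuousWithinAt
  | succ n ih =>
    intro k hk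
    have h1 : ContDiffOn ℝ ((n : ℕ∞ω) + 1) (fun y => ∫ s in (0:ℝ)..1, k (s, y)) U := by
      apply contDiffOn_succ_of_fderiv_apply
      · intro y hy
        exact (hasFDerivAt_par hU (hk.of_le (by simp))
          hy).differentiableAt.differentiableWithinAt
      · simp
      · intro v
        have h2 : ContDiffOn ℝ ∞ (fun q : ℝ × P => fderiv ℝ k q ((0:ℝ), v)) (univ ×ˢ U) := by
          have := hk.fderiv_of_isOpen hopen (m := ∞) (by simp)
          exact this.clm_apply contDiffOn_const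
        refine (ih _ h2).congr ?_
        intro y hy
        rw [fderivWithin_of_isOpen hU hy,
          (hasFDerivAt_par hU (hk.of_le (by simp)) hy).fderiv]
        have hint : IntervalIntegrable (fun s => (fderiv ℝ k (s, y)).comp
            (ContinuousLinearMap.inr ℝ ℝ P)) MeasureTheory.volume 0 1 := by
          apply Continuous.intervalIntegrable
          rw [← continuousOn_univ]
          have hcf : ContinuousOn (fderiv ℝ k) (univ ×ˢ U) :=
            hk.continuousOn_fderiv_of_isOpen hopen (by simp)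
          exact (hcf.clm_comp continuousOn_const).comp (by fun_prop)
            (fun s _ => ⟨mem_univ _, hy⟩)
        rw [ContinuousLinearMap.intervalIntegral_apply hint]
        rfl
    simpa using h1

theorem contDiffOn_par [CompleteSpace G] {U : Set P} (hU : IsOpen U)
    {k : ℝ × P → G} (hk : ContDiffOn ℝ ∞ k (univ ×ˢ U)) :
    ContDiffOn ℝ ∞ (fun y => ∫ s in (0:ℝ)..1, k (s, y)) U :=
  contDiffOn_infty.2 fun n => contDiffOn_par_nat hU n k hk

omit [FiniteDimensional ℝ P] in
/-- the average of `f` over the segment of translations by `τ • a`, `0 ≤ τ ≤ 1` -/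
noncomputable def av (a : P) (f : P → G) (p : P) : G := ∫ τ in (0:ℝ)..1, f (p + τ • a)

theorem av_smooth [CompleteSpace G] {U : Set P} (hU : IsOpen U) {a : P}
    (ha : ∀ p ∈ U, ∀ τ : ℝ, p + τ • a ∈ U) {f : P → G} (hf : ContDiffOn ℝ ∞ f U) :
    ContDiffOn ℝ ∞ (av a f) U := by
  have hk : ContDiffOn ℝ ∞ (fun q : ℝ × P => f (q.2 + q.1 • a)) (univ ×ˢ U) := by
    refine hf.comp (t := U) ?_ (fun q hq => ha q.2 hq.2 q.1)
    exact (contDiff_snd.add (contDiff_fst.smul contDiff_const)).contDiffOn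
  exact contDiffOn_par hU hk

omit [FiniteDimensional ℝ P] in
theorem av_cont {U : Set P} {a : P}
    (ha : ∀ p ∈ U, ∀ τ : ℝ, p + τ • a ∈ U) {f : P → G} (hf : ContinuousOn f U) {p : P}
    (hp : p ∈ U) : Continuous fun τ : ℝ => f (p + τ • a) := by
  rw [← continuousOn_univ]
  exact hf.comp (by fun_prop) (fun τ _ => ha p hp τ)

theorem av_hasFDerivAt {U : Set P} (hU : IsOpen U) {a : P}
    (ha : ∀ p ∈ U, ∀ τ : ℝ, p + τ • a ∈ U) {f : P → G} (hf : ContDiffOn ℝ ∞ f U) {p : P}
    (hp : p ∈ U) : HasFDerivAt (av a f) (∫ τ in (0:ℝ)..1, fderiv ℝ f (p + τ • a)) p := by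
  have hk : ContDiffOn ℝ 1 (fun q : ℝ × P => f (q.2 + q.1 • a)) (univ ×ˢ U) := by
    refine (hf.of_le (by simp)).comp (t := U) ?_ (fun q hq => ha q.2 hq.2 q.1)
    exact (contDiff_snd.add (contDiff_fst.smul contDiff_const)).contDiffOn
  have h1 := hasFDerivAt_par hU hk hp
  have h2 : ∀ τ : ℝ, (fderiv ℝ (fun q : ℝ × P => f (q.2 + q.1 • a)) (τ, p)).comp
      (ContinuousLinearMap.inr ℝ ℝ P) = fderiv ℝ f (p + τ • a) := by
    intro τ
    have hd : DifferentiableAt ℝ f (p + τ • a) :=
      (hf.contDiffAt (hU.mem_nhds (ha p hp τ))).differentiableAt (by simp)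
    have h3 : HasFDerivAt (fun q : ℝ × P => q.2 + q.1 • a)
        (ContinuousLinearMap.snd ℝ ℝ P + (ContinuousLinearMap.fst ℝ ℝ P).smulRight a) (τ, p) :=
      hasFDerivAt_snd.add (hasFDerivAt_fst.smul_const a)
    have h4 : HasFDerivAt (fun q : ℝ × P => f (q.2 + q.1 • a))
        ((fderiv ℝ f (p + τ • a)).comp
          (ContinuousLinearMap.snd ℝ ℝ P + (ContinuousLinearMap.fst ℝ ℝ P).smulRight a)) (τ, p) :=
      HasFDerivAt.comp (g := f) (τ, p) hd.hasFDerivAt h3
    rw [h4.fderiv]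
    ext v
    simp
  simp only [h2] at h1
  exact h1

end Pool.Agent.TH835.HF
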